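import Pool.Agent.Q126.EW7

/-!
# MP_afae70_pr : logarithmically many Ewens permutations and invariable generation

The answer to Q1 is negative for every `α > 1 / log 2` (the proof works for every `α ≥ 1`): for every
`β > 0` the probability `p α n ⌊β log n⌋` does not tend to `0`.

Idea of the proof.  For a dyadic block `[a, A)` of sizes (`A ≤ 2 a`, `a + A ≤ n + 1`) an Ewens
permutation has, with probability at least a constant `c₀(α) > 0`, no invariant set whose size lies
in the block (the cycles shorter than `A` cover fewer than `a` points).  There are only `O(log n)`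
blocks, so already `C log log n` permutations have no common size of an invariant set.  If `n` is a
prime, all the groups in question are then primitive; a cycle of prime length `q ∈ (n/8, n/2]` which
is the only cycle with length divisible by `q` occurs with probability at least `c / log n`, and
gives the alternating group.
-/

set_option autoImplicit false

namespace Pool.Agent.Results.MP_afae70_pr.EveryBeta

open Filter Topology

/-- the number of cycles of a permutation, fixed points included -/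
def cycles {n : ℕ} (σ : Equiv.Perm (Fin n)) : ℕ :=
  Multiset.card σ.cycleType + (Finset.univ.filter (fun x => σ x = x)).card

/-- the Ewens probability `α ^ K(σ) / (α (α + 1) ⋯ (α + n - 1))` -/
noncomputable def ewens (α : ℝ) (n : ℕ) (σ : Equiv.Perm (Fin n)) : ℝ :=
  α ^ cycles σ / ∏ i ∈ Finset.range n, (α + i)

/-- `σ 0, …, σ (N-1)` invariably generate the symmetric group -/
def InvariablyGenerate {n N : ℕ} (σ : Fin N → Equiv.Perm (Fin n)) : Prop :=
  ∀ τ : Fin N → Equiv.Perm (Fin n),
    Subgroup.closure (Set.range (fun i => τ i * σ i * (τ i)⁻¹)) = ⊤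

open Classical in
/-- the probability that `N` independent Ewens permutations invariably generate -/
noncomputable def p (α : ℝ) (n N : ℕ) : ℝ :=
  ∑ σ : Fin N → Equiv.Perm (Fin n), if InvariablyGenerate σ then ∏ i, ewens α n (σ i) else 0

theorem cycles_eq {n : ℕ} (σ : Equiv.Perm (Fin n)) : cycles σ = Q126.EW.cyc σ := by
  unfold cycles Q126.EW.cyc Q126.EW.typ
  rw [Multiset.card_add, Multiset.card_replicate]
  congr 1
  have h1 : Finset.univ.filter (fun x => σ x = x) = σ.supportᶜ := by
    ext x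
    rw [Finset.mem_filter, Finset.mem_compl, Equiv.Perm.mem_support, not_not]
    simp
  rw [h1, Finset.card_compl, Fintype.card_fin]

theorem ewens_eq (α : ℝ) {n : ℕ} (σ : Equiv.Perm (Fin n)) : ewens α n σ = Q126.EW.ew α n σ := by
  unfold ewens Q126.EW.ew
  rw [cycles_eq]

theorem p_eq (α : ℝ) (n N : ℕ) : p α n N = Q126.EW.prob α n N := by
  classical
  unfold p Q126.EW.prob
  apply Finset.sum_congr rfl
  intro σ _
  have e : (∏ i, ewens α n (σ i)) = ∏ i, Q126.EW.ew α n (σ i) :=
    Finset.prod_congr rfl (fun i _ => ewens_eq α (σ i))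
  rw [e]
  by_cases h : InvariablyGenerate σ
  · rw [if_pos h, if_pos (show Q126.EW.InvGen σ from h), mul_one]
  · rw [if_neg h, if_neg (show ¬ Q126.EW.InvGen σ from h), mul_zero]

/-- **Q1 is false for every `α > 1 / log 2`.**  Moreover, for every real `α ≥ 1`: for every `β > 0`
the probability `p α n ⌊β log n⌋` does not tend to `0`, and there is `c > 0` depending only on `α`
with `p α n ⌊β log n⌋ ≥ 1 - exp (-c β) - ε` for all large primes `n`. -/
theorem result :
    (∀ α : ℝ, 1 / Real.log 2 < α →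
      ¬ ∃ β β' : ℝ, 0 < β ∧ β < β' ∧
        Tendsto (fun n : ℕ => p α n ⌊β * Real.log n⌋₊) atTop (𝓝 0) ∧
        0 < liminf (fun n : ℕ => p α n ⌈β' * Real.log n⌉₊) atTop) ∧
    (∀ α : ℝ, 1 ≤ α → ∀ β : ℝ, 0 < β →
      ¬ Tendsto (fun n : ℕ => p α n ⌊β * Real.log n⌋₊) atTop (𝓝 0)) ∧
    (∀ α : ℝ, 1 ≤ α → ∃ c : ℝ, 0 < c ∧ ∀ β : ℝ, 0 < β → ∀ ε : ℝ, 0 < ε →
      ∃ n₁ : ℕ, ∀ n : ℕ, n₁ ≤ n → n.Prime →
        1 - Real.exp (-(c * β)) - ε ≤ p α n ⌊β * Real.log n⌋₊) := by
  have h2 : ∀ α : ℝ, 1 ≤ α → ∀ β : ℝ, 0 < β →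
      ¬ Tendsto (fun n : ℕ => p α n ⌊β * Real.log n⌋₊) atTop (𝓝 0) := by
    intro α hα β hβ h
    apply Q126.EW.not_tendsto hα hβ
    refine h.congr ?_
    intro n
    exact p_eq α n _
  refine ⟨?_, h2, ?_⟩
  · rintro α hα ⟨β, β', hβ, -, h, -⟩
    apply h2 α ?_ β hβ h
    have h3 : (1 : ℝ) ≤ 1 / Real.log 2 := by
      rw [le_div_iff₀ (Real.log_pos (by norm_num))]
      have := Real.log_two_lt_d9
      linarith
    linarith
  · intro α hα
    obtain ⟨c, hc, h⟩ := Q126.EW.lower hα
    refine ⟨c, hc, ?_⟩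
    intro β hβ ε hε
    obtain ⟨n₁, hn⟩ := h β hβ ε hε
    refine ⟨n₁, ?_⟩
    intro n h1 h3
    rw [p_eq]
    exact hn n h1 h3

end Pool.Agent.Results.MP_afae70_pr.EveryBeta
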